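import Pool.Agent.FAN.Main

/-!
# The `C^r` stability conjecture for skew products over arbitrary diffeomorphisms with hyperbolic toral fibres
-/

open Manifold ContDiff

namespace Pool.Agent.Results.MP_4a0782_an.FibrewiseHyperbolic

open OmSt PRH FAN

/-- Let `M`, `N`, `X` be closed smooth manifolds, `N` a torus `E' / Λ` with the projection `π : E' → N`
(`TorusCov`: a surjective local diffeomorphism whose fibres are the cosets of `Λ`), `1 ≤ r ≤ ∞`, and
`Θ : X → M × N` a `C^∞` diffeomorphism. Let `A` be a linear automorphism of `E'` which is hyperbolic with the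
constant `K` (`Dich`: for every sequence `e : ℤ → E'` bounded by `C` the equation
`v (n + 1) = A (v n) + e n` has exactly one bounded solution, and it is bounded by `K * C`), `β : M → N` a
continuous map, `θ : M × N → E'` a continuous map with
`‖θ (x, π w) - θ (x, π w')‖ ≤ ‖w - w'‖ / (2 * K)`, and let `g`, `f` be `C^r` diffeomorphisms of `M`, `X` such
that, in the coordinates `Θ`,

  `f (x, π w) = (g x, β x + π (A w + θ (x, π w)))`

(that is `(g x, π (b + A w + θ (x, π w)))` for every `b` with `π b = β x`). The diffeomorphism `g` of the base is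
arbitrary. If `f` is `Ω`-stable in the space of all `C^r` diffeomorphisms of `X`, then `f` satisfies Axiom A. -/
theorem result {E : Type*} [NormedAddCommGroup E] [NormedSpace ℝ E] [FiniteDimensional ℝ E]
    {E' : Type*} [NormedAddCommGroup E'] [NormedSpace ℝ E'] [FiniteDimensional ℝ E'] [Nontrivial E']
    {F : Type*} [NormedAddCommGroup F] [NormedSpace ℝ F] [FiniteDimensional ℝ F]
    {M : Type*} [TopologicalSpace M] [T2Space M] [CompactSpace M] [ChartedSpace E M]
    [IsManifold 𝓘(ℝ, E) ∞ M]
    {N : Type*} [TopologicalSpace N] [T2Space N] [CompactSpace N] [ChartedSpace E' N]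
    [IsManifold 𝓘(ℝ, E') ∞ N]
    {X : Type*} [TopologicalSpace X] [T2Space X] [CompactSpace X] [ChartedSpace F X]
    [IsManifold 𝓘(ℝ, F) ∞ X] (r : ℕ∞) (hr : 1 ≤ r)
    (π : E' → N) (Λ : AddSubgroup E') (hπ : TorusCov π Λ)
    (A : E' ≃L[ℝ] E') (K : ℝ) (hK : 0 < K) (hA : Dich (fun _ : ℤ => (A : E' →L[ℝ] E')) K)
    (β : M → N) (hβ : Continuous β) (θ : M × N → E') (hθ : Continuous θ)
    (hLip : ∀ x w w', ‖θ (x, π w) - θ (x, π w')‖ ≤ ‖w - w'‖ / (2 * K))
    (Θ : Diffeomorph 𝓘(ℝ, F) (𝓘(ℝ, E).prod 𝓘(ℝ, E')) X (M × N) ∞)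
    (g : Dyn E M r) (f : Dyn F X r)
    (hf : ∀ x w b, π b = β x → Θ (f (Θ.symm (x, π w))) = (g x, π (b + A w + θ (x, π w))))
    (hstab : OmegaStable f) : AxiomA f := by
  have : SecondCountableTopology M := ChartedSpace.secondCountable_of_sigmaCompact E M
  have : TopologicalSpace.MetrizableSpace M :=
    TopologicalSpace.metrizableSpace_of_t3_secondCountable M
  let _ : MetricSpace M := TopologicalSpace.metrizableSpaceMetric M
  have : SecondCountableTopology N := ChartedSpace.secondCountable_of_sigmaCompact E' N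
  have : TopologicalSpace.MetrizableSpace N :=
    TopologicalSpace.metrizableSpace_of_t3_secondCountable N
  let _ : MetricSpace N := TopologicalSpace.metrizableSpaceMetric N
  have : SecondCountableTopology X := ChartedSpace.secondCountable_of_sigmaCompact F X
  have : TopologicalSpace.MetrizableSpace X :=
    TopologicalSpace.metrizableSpace_of_t3_secondCountable X
  let _ : MetricSpace X := TopologicalSpace.metrizableSpaceMetric X
  exact main_fan hr hK hA hπ hβ hθ hLip Θ hf hstab

end Pool.Agent.Results.MP_4a0782_an.FibrewiseHyperbolic
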