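import Pool.Agent.OmSt2.Final3
import Pool.Agent.OmSt.Final

/-!
# Omega-stable diffeomorphisms satisfy Axiom A iff their recurrent orbit closures are hyperbolic
-/

open Manifold ContDiff

namespace Pool.Agent.Results.MP_4a0782_an.HyperbolicRecurrence

open OmSt

/-- Let `M` be a closed smooth manifold, `1 ≤ r ≤ ∞` and `f` a `C^r` diffeomorphism of `M` which
is `Ω`-stable in the `C^r` topology.

(1) `f` satisfies Axiom A if and only if, for every recurrent point `x` which is not periodic,
the closure of the orbit of `x` is a hyperbolic set (with constants which may depend on `x`).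

(2) If every recurrent point of `f` is periodic, or if the nonwandering set of `f` is countable,
then the nonwandering set of `f` is finite and `f` satisfies Axiom A. -/
theorem result {E : Type*} [NormedAddCommGroup E] [NormedSpace ℝ E] [FiniteDimensional ℝ E]
    {M : Type*} [TopologicalSpace M] [T2Space M] [CompactSpace M] [ChartedSpace E M]
    [IsManifold 𝓘(ℝ, E) ∞ M] (r : ℕ∞) (hr : 1 ≤ r) (f : Dyn E M r) (hf : OmegaStable f) :
    (AxiomA f ↔ ∀ x, Recurrent f x → x ∉ Function.periodicPts f →
      IsHyperbolicSet f (closure (Set.range fun n : ℕ => f^[n] x))) ∧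
    ((∀ x, Recurrent f x → x ∈ Function.periodicPts f) ∨ (nonwandering f).Countable →
      (nonwandering f).Finite ∧ AxiomA f) := by
  have : SecondCountableTopology M := ChartedSpace.secondCountable_of_sigmaCompact E M
  have : TopologicalSpace.MetrizableSpace M :=
    TopologicalSpace.metrizableSpace_of_t3_secondCountable M
  letI : MetricSpace M := TopologicalSpace.metrizableSpaceMetric M
  exact ⟨main_metric3 hr f hf, main_metric r hr f hf⟩

end Pool.Agent.Results.MP_4a0782_an.HyperbolicRecurrence
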