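import Pool.Agent.PRH.Main3

/-!
# The `C^r` stability conjecture for products of diffeomorphisms with horseshoes
-/

open Manifold ContDiff

namespace Pool.Agent.Results.MP_4a0782_an.ProductHorseshoe

open OmSt PRH

/-- Let `M`, `N`, `X` be closed smooth manifolds, `1 ≤ r ≤ ∞`, `g`, `A`, `f` `C^r` diffeomorphisms of `M`,
`N`, `X`, and suppose that a `C^∞` diffeomorphism `Θ : X → M × N` conjugates `f` with the product
`g × A`. Suppose that `f` is `Ω`-stable in the space of all `C^r` diffeomorphisms of `X`, and that `A` has
a horseshoe (for some `m ≥ 1` there is an `A^m`-invariant set on which `A^m` is topologically conjugate to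
the full shift on two symbols).

Then `g` satisfies Axiom A. If moreover `g` has a horseshoe too, or the closures of the orbits of the
recurrent points of `A` are hyperbolic (for instance `A` is Anosov or satisfies Axiom A), then `f`
satisfies Axiom A. -/
theorem result {E : Type*} [NormedAddCommGroup E] [NormedSpace ℝ E] [FiniteDimensional ℝ E]
    {E' : Type*} [NormedAddCommGroup E'] [NormedSpace ℝ E'] [FiniteDimensional ℝ E']
    {F : Type*} [NormedAddCommGroup F] [NormedSpace ℝ F] [FiniteDimensional ℝ F]
    {M : Type*} [TopologicalSpace M] [T2Space M] [CompactSpace M] [ChartedSpace E M]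
    [IsManifold 𝓘(ℝ, E) ∞ M]
    {N : Type*} [TopologicalSpace N] [T2Space N] [CompactSpace N] [ChartedSpace E' N]
    [IsManifold 𝓘(ℝ, E') ∞ N]
    {X : Type*} [TopologicalSpace X] [T2Space X] [CompactSpace X] [ChartedSpace F X]
    [IsManifold 𝓘(ℝ, F) ∞ X] (r : ℕ∞) (hr : 1 ≤ r)
    (Θ : Diffeomorph 𝓘(ℝ, F) (𝓘(ℝ, E).prod 𝓘(ℝ, E')) X (M × N) ∞)
    (g : Dyn E M r) (A : Dyn E' N r) (f : Dyn F X r)
    (hf : ∀ x, Θ (f x) = (g (Θ x).1, A (Θ x).2)) (hstab : OmegaStable f) (hA : Horseshoe A) :
    AxiomA g ∧
    ((Horseshoe g ∨
      ∀ y, Recurrent A y → IsHyperbolicSet A (closure (Set.range fun n : ℕ => A^[n] y))) →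
      AxiomA f) := by
  have : SecondCountableTopology M := ChartedSpace.secondCountable_of_sigmaCompact E M
  have : TopologicalSpace.MetrizableSpace M :=
    TopologicalSpace.metrizableSpace_of_t3_secondCountable M
  let _ : MetricSpace M := TopologicalSpace.metrizableSpaceMetric M
  have : SecondCountableTopology N := ChartedSpace.secondCountable_of_sigmaCompact E' N
  have : TopologicalSpace.MetrizableSpace N :=
    TopologicalSpace.metrizableSpace_of_t3_secondCountable N
  let _ : MetricSpace N := TopologicalSpace.metrizableSpaceMetric N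
  have : SecondCountableTopology X := ChartedSpace.secondCountable_of_sigmaCompact F X
  have : TopologicalSpace.MetrizableSpace X :=
    TopologicalSpace.metrizableSpace_of_t3_secondCountable X
  let _ : MetricSpace X := TopologicalSpace.metrizableSpaceMetric X
  exact ⟨main3 hr Θ hf hstab hA, fun h => main2 hr Θ hf hstab hA h⟩

end Pool.Agent.Results.MP_4a0782_an.ProductHorseshoe
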