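import Pool.Agent.TCE.Core

/-!
# The `C^r` stability conjecture for circle extensions: the topological part
-/

open Manifold ContDiff Topology Set

namespace Pool.Agent.Results.MP_4a0782_an.TopologicalHyperbolicity

open OmSt TCE

/-- Let `M` and `B` be closed smooth manifolds, `1 ≤ r ≤ ∞`, and let `P` be a principal circle
bundle `p : M → B`. Let `g` be a `C^r` diffeomorphism of `B` which satisfies Axiom A, or, more
generally, which is topologically hyperbolic (expansive, with the shadowing property) on its
nonwandering set. Let `f` be a `C^r` diffeomorphism of `M` which covers `g` and preserves the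
orientation of the circles. If `f` is `Ω`-stable in the `C^r` topology, then
* every recurrent point of `f` is a limit of periodic points of `f`;
* `f` is topologically hyperbolic on the closure of the set of its periodic points;
* if the chain recurrent points of `g` are nonwandering, then the periodic points of `f` are dense
  in its nonwandering set. -/
theorem result {E : Type*} [NormedAddCommGroup E] [NormedSpace ℝ E] [FiniteDimensional ℝ E]
    {M : Type*} [TopologicalSpace M] [T2Space M] [CompactSpace M] [ChartedSpace E M]
    [IsManifold 𝓘(ℝ, E) ∞ M]
    {E' : Type*} [NormedAddCommGroup E'] [NormedSpace ℝ E'] [FiniteDimensional ℝ E']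
    {B : Type*} [TopologicalSpace B] [T2Space B] [CompactSpace B] [ChartedSpace E' B]
    [IsManifold 𝓘(ℝ, E') ∞ B] (r : ℕ∞) (hr : 1 ≤ r) (P : CircleBundle E M E' B)
    (f : Dyn E M r) (g : Dyn E' B r) (hcov : ∀ x, P.p (f x) = g (P.p x)) (hP : P.Oriented f)
    (hg : AxiomA g ∨ TopHyp g (nonwandering g)) (hf : OmegaStable f) :
    (∀ x, Recurrent f x → x ∈ closure (Function.periodicPts f)) ∧
      TopHyp f (closure (Function.periodicPts f)) ∧
      ((∀ b, ChainRec g b → b ∈ nonwandering g) →
        nonwandering f = closure (Function.periodicPts f)) := by
  have : SecondCountableTopology M := ChartedSpace.secondCountable_of_sigmaCompact E M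
  have : TopologicalSpace.MetrizableSpace M :=
    TopologicalSpace.metrizableSpace_of_t3_secondCountable M
  letI : MetricSpace M := TopologicalSpace.metrizableSpaceMetric M
  have : SecondCountableTopology B := ChartedSpace.secondCountable_of_sigmaCompact E' B
  have : TopologicalSpace.MetrizableSpace B :=
    TopologicalSpace.metrizableSpace_of_t3_secondCountable B
  letI : MetricSpace B := TopologicalSpace.metrizableSpaceMetric B
  exact main_top hr P f g hcov hP hg hf

end Pool.Agent.Results.MP_4a0782_an.TopologicalHyperbolicity
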